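import Pool.Agent.Work.MP_02e829_fr.ALGU
import Pool.Agent.Work.MP_02e829_fr.BEL
import Pool.Agent.Work.MP_02e829_fr.CHR
import Pool.Agent.Work.MP_02e829_fr.CHT
import Pool.Agent.Work.MP_02e829_fr.COD
import Pool.Agent.Work.MP_02e829_fr.FAR
import Pool.Agent.Work.MP_02e829_fr.FDL
import Pool.Agent.Work.MP_02e829_fr.FRM
import Pool.Agent.Work.MP_02e829_fr.FUN
import Pool.Agent.Work.MP_02e829_fr.GAU
import Pool.Agent.Work.MP_02e829_fr.HOM
import Pool.Agent.Work.MP_02e829_fr.KOS
import Pool.Agent.Work.MP_02e829_fr.LOA
import Pool.Agent.Work.MP_02e829_fr.LOB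
import Pool.Agent.Work.MP_02e829_fr.LOC
import Pool.Agent.Work.MP_02e829_fr.MAN
import Pool.Agent.Work.MP_02e829_fr.MOT
import Pool.Agent.Work.MP_02e829_fr.PTW
import Pool.Agent.Work.MP_02e829_fr.SDT
import Pool.Agent.Work.MP_02e829_fr.UCP
import Pool.Agent.Work.MP_02e829_fr.WEI
import Pool.Agent.Work.MP_02e829_fr.Deformation

/-!
# Closed surfaces have no nontrivial isometric deformations of finite rank

`S` is a compact connected surface (a manifold of dimension two without boundary, of class `C⁴`),
`f t : S → E³`, `0 ≤ t ≤ 1`, is a family of immersions of class `C⁴` inducing the same metric,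
`t ↦ f t p` is continuous for every point `p`, and the coordinate functions of all the `f t` lie in
one finite dimensional space of functions on `S`.  Then every `f t` is `f 0` followed by an
isometry of the space.
-/

open Set Manifold Pool.FR

set_option autoImplicit false

universe w

namespace Pool.Agent.Results.MP_02e829_gt.FiniteRank

theorem toFiniteRank {S : Type w} [TopologicalSpace S] [ChartedSpace FRD.Plane S]
    {f : ℝ → S → FRD.Space} (h : FRD.FiniteRankDeformation f) : Pool.FR.FiniteRank S f where
  smooth := h.smooth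
  imm := h.immersion
  iso := fun t ht p v w => congrFun (congrFun (congrFun (h.isometric t ht) p) v) w
  cont := h.continuous
  rank := h.finite_rank

theorem result {S : Type w} [TopologicalSpace S] [ChartedSpace FRD.Plane S]
    [IsManifold (𝓡 2) 4 S] [CompactSpace S] [ConnectedSpace S]
    (f : ℝ → S → FRD.Space) (hf : FRD.FiniteRankDeformation f) :
    ∀ t ∈ Icc (0 : ℝ) 1, ∃ A : FRD.Space ≃ᵢ FRD.Space, ∀ p, f t p = A (f 0 p) := by
  have kos := blk_KOS
  have loc := blk_LOC blk_ALGU blk_FDL (blk_LOA kos) (blk_LOB kos)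
  have frm := blk_FRM
  have chr := blk_CHR
  have sdt := blk_SDT
  have ptw := blk_PTW (blk_GAU loc blk_HOM frm) (blk_WEI frm) frm
  have mot := blk_MOT frm
  have cht := blk_CHT ptw (blk_BEL frm chr (blk_COD frm)) (blk_UCP sdt) (blk_FUN frm chr) mot frm
  exact fun t ht => blk_MAN (blk_FAR sdt frm) mot cht S f (toFiniteRank hf) t ht

end Pool.Agent.Results.MP_02e829_gt.FiniteRank
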