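import Pool.Agent.Work.MP_02e829_pg.All
import Pool.Agent.Work.MP_02e829_tr.Mv

/-!
# Rigidity propagates across parabolic curves; surfaces of revolution cannot be bent

`S` is a compact surface (a Hausdorff manifold of dimension two without boundary, of class `C^n`,
`4 ≤ n ≤ ∞`), `f t : S → E³`, `0 ≤ t ≤ 1`, is a family of immersions of class `C^n` inducing the
same metric, continuous in the `C²` topology and locally bounded in the `C^n` topology (in
particular every isometric deformation of class `C^n`).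

Sets which move rigidly for all `t` are found by six rules (`Reached`):

* open sets on which rigidity is already known;
* the hyperbolic side of a trough of `f 0` (a closed curve along which the surface touches a plane
  and which is a convex curve of this plane, such that the surface is curved across the curve);
* a connected open set of points of positive curvature which meets a reached set;
* a tube one end `x₁ < 0` of which is in a reached set; here for `0 < x₁ < 1` the closed curves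
  `x₁ = const` have nonzero normal curvature and the Gauss curvature is not zero (of either sign),
  and on the curve `x₁ = 0`, which may be parabolic, the zeros of these quantities have finite
  order;
* a surface of revolution for which `ζ'` and `ρ' ζ'' - ρ'' ζ'` vanish everywhere to a finite
  order at most (less than `n - 2`) and `ζ' = 0 ≠ ζ''` on one parallel;
* a connected open set in which the union of reached sets is dense.

THEOREM. On every reached set, and on its closure, `f t` is congruent to `f 0`.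

In particular no closed surface of revolution of class `C^∞`, embedded or immersed, whose
parabolic parallels have finite order and which has one parallel with horizontal tangent planes and
`ζ'' ≠ 0` has a nontrivial isometric deformation of class `C^∞` (it is the closure of a reached set).
-/

open Set Manifold Matrix
open scoped ContDiff Real

set_option autoImplicit false

universe w

namespace Pool.Agent.Results.MP_02e829_gt.Propagation

/-- The plane, model space of surfaces. -/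
abbrev Plane := EuclideanSpace ℝ (Fin 2)

/-- Euclidean three-space. -/
abbrev Space := EuclideanSpace ℝ (Fin 3)

/-- `A` is a proper motion of the space: `A x = R x + b` with a rotation `R`. -/
def Motion (A : Space → Space) : Prop :=
  ∃ (R : Matrix (Fin 3) (Fin 3) ℝ) (b : Space), Rᵀ * R = 1 ∧ R.det = 1 ∧
    ∀ x i, A x i = ∑ j, R i j * x j + b i

/-- The partial derivative of `F` at `x` in the direction of the coordinate `i`. -/
noncomputable def partialD (i : Fin 2) (F : Plane → Space) (x : Plane) : Space :=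
  fderiv ℝ F x (EuclideanSpace.single i (1 : ℝ))

/-- The second fundamental form of `F` with respect to the normal vector `∂₀ F × ∂₁ F`: the
determinant of the vectors `∂ᵢ ∂ⱼ F`, `∂₀ F`, `∂₁ F`. -/
noncomputable def secondForm (F : Plane → Space) (i j : Fin 2) (x : Plane) : ℝ :=
  (Matrix.of fun k l => ![partialD i (partialD j F) x, partialD 0 F x, partialD 1 F x] k l).det

/-- The determinant of the second fundamental form (it has the sign of the Gauss curvature). -/
noncomputable def curv (F : Plane → Space) (x : Plane) : ℝ :=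
  secondForm F 0 0 x * secondForm F 1 1 x - secondForm F 0 1 x ^ 2

/-- The unit vector with angle `a` in the plane of `e₁, e₂`. -/
noncomputable def unit (e₁ e₂ : Space) (a : ℝ) : Space := Real.cos a • e₁ + Real.sin a • e₂

/-- The strip `a < x₁ < b` of the plane (coordinates `x₀, x₁`). -/
def Strip (a b : ℝ) : Set Plane := {x | a < x 1 ∧ x 1 < b}

/-- The point `(s, 0)` of the plane. -/
noncomputable def pt (s : ℝ) : Plane := s • EuclideanSpace.single 0 (1 : ℝ)

section surface

variable {S : Type w} [TopologicalSpace S] [ChartedSpace Plane S]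

/-- The differential of `f` at `p` (the tangent space of the surface at `p` is identified with the
plane as in Mathlib, by the preferred chart at `p`). -/
noncomputable def D (f : S → Space) (p : S) : Plane →L[ℝ] Space := mfderiv (𝓡 2) (𝓡 3) f p

/-- The vector `df_p(v)`. -/
noncomputable def dvec (f : S → Space) (p : S) (v : Plane) : Space := D f p v

/-- The map `f` in the inverse of the chart at `p`. -/
noncomputable def inChart (f : S → Space) (p : S) (x : Plane) : Space :=
  f ((extChartAt (𝓡 2) p).symm x)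

/-- The domain of the inverse of the chart at `p`. -/
def dom (p : S) : Set Plane := (extChartAt (𝓡 2) p).target

/-- `f t`, `0 ≤ t ≤ 1`, is an isometric deformation through immersions of class `C^n`: in the charts
the derivatives of order `≤ 2` (values included) are jointly continuous in `t` and the point, and
those of every order `k ≤ n`, `k < ∞`, are bounded near every point, uniformly in `t`. -/
structure Deformation (n : ℕ∞) (f : ℝ → S → Space) : Prop where
  smooth : ∀ t ∈ Icc (0 : ℝ) 1, ContMDiff (𝓡 2) (𝓡 3) n (f t)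
  immersion : ∀ t ∈ Icc (0 : ℝ) 1, ∀ p, Function.Injective (dvec (f t) p)
  isometric : ∀ t ∈ Icc (0 : ℝ) 1, ∀ p v w,
    inner ℝ (dvec (f t) p v) (dvec (f t) p w) = inner ℝ (dvec (f 0) p v) (dvec (f 0) p w)
  continuous : ∀ (p : S) (k : ℕ), k ≤ 2 → ContinuousOn
    (fun z : ℝ × Plane => iteratedFDeriv ℝ k (inChart (f z.1) p) z.2) (Icc 0 1 ×ˢ dom p)
  bounded : ∀ k : ℕ, (k : ℕ∞) ≤ n → ∀ (p : S), ∀ x ∈ dom p, ∃ M : ℝ, ∀ᶠ y in nhds x,
    ∀ t ∈ Icc (0 : ℝ) 1, ∀ j ≤ k, ‖iteratedFDeriv ℝ j (inChart (f t) p) y‖ ≤ M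

/-- Coordinates of class `C^n` on an annulus of the surface: a local diffeomorphism of the strip
`a < x₁ < b` which is `2π`-periodic in `x₀`. -/
structure Annulus (n : ℕ∞) (a b : ℝ) (Φ : Plane → S) : Prop where
  smooth : ContMDiffOn (𝓡 2) (𝓡 2) n Φ (Strip a b)
  regular : ∀ x ∈ Strip a b,
    Function.Injective (fderiv ℝ (fun y => extChartAt (𝓡 2) (Φ x) (Φ y)) x)
  periodic : ∀ x ∈ Strip a b, Φ (x + pt (2 * π)) = Φ x

/-- The closed curve `s ↦ Φ (s, 0)` is a trough of `f`: along the line `x₁ = 0` the map `F = f ∘ Φ`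
touches the plane of the orthonormal vectors `e₁, e₂` in a convex curve with tangent angle `φ`, and
`∂₁∂₁ F` is not in this plane.  The side `x₁ > 0` is hyperbolic: the components of `∂₀∂₀ F` and
`∂₁∂₁ F` in the direction of the normal vectors have opposite signs. -/
structure Trough (f : S → Space) (Φ : Plane → S) : Prop where
  annulus : Annulus 4 (-1) 1 Φ
  touches : ∃ (e₁ e₂ : Space) (φ : ℝ → ℝ), Orthonormal ℝ ![e₁, e₂] ∧
    (ContDiff ℝ 3 φ ∧ (∀ s, 0 < deriv φ s) ∧ ∀ s, φ (s + 2 * π) = φ s + 2 * π) ∧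
    (∀ s, ∃ ρ : ℝ, 0 < ρ ∧ partialD 0 (fun x => f (Φ x)) (pt s) = ρ • unit e₁ e₂ (φ s)) ∧
    (∀ s, ∃ lam mu : ℝ, 0 < mu ∧ partialD 1 (fun x => f (Φ x)) (pt s) =
      lam • unit e₁ e₂ (φ s) + mu • unit e₁ e₂ (φ s + π / 2)) ∧
    ∀ s, partialD 1 (partialD 1 fun x => f (Φ x)) (pt s) ∉ Submodule.span ℝ {e₁, e₂}
  hyperbolic : ∀ x ∈ Strip 0 1, ∀ ν : Space, ν ≠ 0 →
    inner ℝ (partialD 0 (fun y => f (Φ y)) x) ν = 0 →
    inner ℝ (partialD 1 (fun y => f (Φ y)) x) ν = 0 →
    inner ℝ (partialD 0 (partialD 0 fun y => f (Φ y)) x) ν *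
      inner ℝ (partialD 1 (partialD 1 fun y => f (Φ y)) x) ν < 0

/-- Positive curvature at `p`: near `p` the surface is in a ball with `f p` on its boundary. -/
def Positive (f : S → Space) (p : S) : Prop :=
  ∃ ν : Space, ∀ᶠ q in nhds p, ‖f q - f p‖ ^ 2 ≤ inner ℝ (f q - f p) ν

/-- A tube of `f`: for `0 < x₁ < 1` the curves `x₁ = const` have nonzero normal curvature and the
Gauss curvature is not zero.  The zeros on the line `x₁ = 0` have finite order: there are `p, q`
(small with respect to `n`) such that for `0 ≤ x₁ < 1` the coefficients `h₀₀, h₀₁` of the second form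
are `x₁ ^ p` times a `C¹` function and the determinant is `x₁ ^ q` times a `C¹` function, with
nonzero factors on the line for `h₀₀` and the determinant. -/
structure Tube (n : ℕ∞) (f : S → Space) (Φ : Plane → S) : Prop where
  annulus : Annulus n (-1) 1 Φ
  regular : ∀ x ∈ Strip 0 1, secondForm (fun y => f (Φ y)) 0 0 x ≠ 0 ∧ curv (fun y => f (Φ y)) x ≠ 0
  order : ∃ (p q : ℕ) (u v z : Plane → ℝ), (p : ℕ∞) + 2 < n ∧ (q : ℕ∞) + 2 < n + p ∧
    2 * p ≤ q + 1 ∧ ContDiffOn ℝ 1 u (Strip (-1) 1) ∧ ContDiffOn ℝ 1 v (Strip (-1) 1) ∧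
    ContDiffOn ℝ 1 z (Strip (-1) 1) ∧ (∀ s : ℝ, u (pt s) ≠ 0 ∧ z (pt s) ≠ 0) ∧
    ∀ x : Plane, 0 ≤ x 1 → x 1 < 1 → secondForm (fun y => f (Φ y)) 0 0 x = x 1 ^ p * u x ∧
      secondForm (fun y => f (Φ y)) 0 1 x = x 1 ^ p * v x ∧
      curv (fun y => f (Φ y)) x = x 1 ^ q * z x

/-- The restriction of `f` to the open set `C` is a surface of revolution with the profile `ρ, ζ` of
class `C^n` on `(a, b)`, in the position given by `c` and the orthonormal basis `e₁, e₂, e₃`; here
`ζ'` and `ρ' ζ'' - ρ'' ζ'` vanish at most to a finite order, and `ζ' = 0 ≠ ζ''` somewhere. -/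
def Revolution (n : ℕ∞) (f : S → Space) (C : Set S) : Prop :=
  ∃ (a b : ℝ) (Φ : Plane → S) (ρ ζ : ℝ → ℝ) (c e₁ e₂ e₃ : Space), C = Φ '' Strip a b ∧
    Annulus n a b Φ ∧ Orthonormal ℝ ![e₁, e₂, e₃] ∧
    (∀ x ∈ Strip a b, f (Φ x) = c + ρ (x 1) • unit e₁ e₂ (x 0) + ζ (x 1) • e₃) ∧
    ContDiffOn ℝ n ρ (Ioo a b) ∧ ContDiffOn ℝ n ζ (Ioo a b) ∧
    (∀ y ∈ Ioo a b, 0 < ρ y ∧ ∀ g : ℝ → ℝ, g = deriv ζ ∨
      g = (fun s => deriv ρ s * deriv (deriv ζ) s - deriv (deriv ρ) s * deriv ζ s) →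
      ∃ (k : ℕ) (U : ℝ → ℝ), (k : ℕ∞) + 2 < n ∧ ContDiffAt ℝ 1 U y ∧ U y ≠ 0 ∧
        ∀ᶠ s in nhds y, g s = (s - y) ^ k * U s) ∧
    ∃ y ∈ Ioo a b, deriv ζ y = 0 ∧ deriv (deriv ζ) y ≠ 0

/-- The sets found by the rules. -/
inductive Reached (n : ℕ∞) (f : ℝ → S → Space) : Set S → Prop
  | known (C : Set S) : IsOpen C → (∀ t ∈ Icc (0 : ℝ) 1, ∃ A, Motion A ∧
      ∀ p ∈ C, f t p = A (f 0 p)) → Reached n f C
  | trough (Φ : Plane → S) : Trough (f 0) Φ → Reached n f (Φ '' Strip 0 1)
  | convex (U O : Set S) : Reached n f U → IsOpen O → IsPreconnected O → (U ∩ O).Nonempty →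
      (∀ p ∈ O, Positive (f 0) p) → Reached n f O
  | tube (U : Set S) (Φ : Plane → S) : Reached n f U → Tube n (f 0) Φ →
      MapsTo Φ (Strip (-1) 0) U → Reached n f (Φ '' Strip (-1) 1)
  | revolution (C : Set S) : Revolution n (f 0) C → Reached n f C
  | union (R : Set (Set S)) (O : Set S) : (∀ C ∈ R, Reached n f C) → IsOpen O →
      IsPreconnected O → O ⊆ closure (⋃₀ R) → Reached n f O

end surface

/-! ### Translation -/

theorem strip_eq : Strip (-1) 1 = Pool.TRG.St := by
  ext x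
  simp only [Strip, Pool.TRG.St, mem_ofPred_eq, abs_lt]

theorem strip0_eq : Strip 0 1 = {x : Plane | x ∈ Pool.TRG.St ∧ 0 < x 1} := by
  ext x
  simp only [Strip, Pool.TRG.St, mem_ofPred_eq, abs_lt]
  constructor
  · rintro ⟨h1, h2⟩
    exact ⟨⟨by linarith, h2⟩, h1⟩
  · rintro ⟨⟨-, h2⟩, h1⟩
    exact ⟨h1, h2⟩

theorem det3_eq (u v w : Space) : (Matrix.of fun k l => ![u, v, w] k l).det =
    Pool.SXB.L3 u ⬝ᵥ (Pool.SXB.L3 v ⨯₃ Pool.SXB.L3 w) := by
  have h : ∀ (z : Space) (i : Fin 3), Pool.SXB.L3 z i = z i := fun z i => rfl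
  rw [cross_apply, dotProduct, Fin.sum_univ_three, Matrix.det_fin_three]
  simp only [h, Matrix.of_apply, Matrix.cons_val_zero, Matrix.cons_val_one, Matrix.cons_val]
  ring

theorem secondForm_eq (F : Plane → Space) (i j : Fin 2) (x : Plane) :
    secondForm F i j x = Pool.PGR.sf F i j x := det3_eq _ _ _

theorem curv_eq (F : Plane → Space) (x : Plane) : curv F x = Pool.PGR.sd F x := by
  rw [curv, Pool.PGR.sd, secondForm_eq, secondForm_eq, secondForm_eq]

section
variable {S : Type w} [TopologicalSpace S] [ChartedSpace Plane S]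

theorem strip_open (a b : ℝ) : IsOpen (Strip a b) := by
  have h : Continuous fun x : Plane => x 1 := by fun_prop
  exact (isOpen_Ioi.preimage h).inter (isOpen_Iio.preimage h)

theorem mfd_inj {n : WithTop ℕ∞} (hn : 1 ≤ n) {a b : ℝ} {Φ : Plane → S}
    (h1 : ContMDiffOn (𝓡 2) (𝓡 2) n Φ (Strip a b))
    (h2 : ∀ x ∈ Strip a b,
      Function.Injective (fderiv ℝ (fun y => extChartAt (𝓡 2) (Φ x) (Φ y)) x)) :
    ∀ x ∈ Strip a b, Function.Injective (mfderiv (𝓡 2) (𝓡 2) Φ x) := by
  intro x hx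
  have h4 : ContMDiffAt (𝓡 2) (𝓡 2) 1 Φ x :=
    ((h1.of_le hn) x hx).contMDiffAt ((strip_open a b).mem_nhds hx)
  have h5 : fderiv ℝ (fun y => extChartAt (𝓡 2) (Φ x) (Φ y)) x = mfderiv (𝓡 2) (𝓡 2) Φ x := by
    rw [(h4.mdifferentiableAt one_ne_zero).mfderiv]
    simp [writtenInExtChartAt, Function.comp_def, fderivWithin_univ]
  rw [← h5]
  exact h2 x hx

theorem ann_of {n : ℕ∞} (hn : 1 ≤ n) {Φ : Plane → S} (h : Annulus n (-1) 1 Φ) :
    Pool.TRG.Ann n Φ := by
  obtain ⟨h1, h2, h3⟩ := h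
  have h4 := mfd_inj (by exact_mod_cast hn) h1 h2
  rw [strip_eq] at h1 h3 h4
  exact ⟨h1, h4, h3⟩

theorem def_of {n : ℕ∞} {f : ℝ → S → Space} (hf : Deformation n f) : Pool.PGR.DfN n f := by
  intro m hm
  exact ⟨fun t ht => (hf.smooth t ht).of_le (by exact_mod_cast hm), hf.immersion,
    hf.isometric, hf.continuous, hf.bounded m hm⟩

theorem tube_of {n : ℕ∞} (hn : 1 ≤ n) {f : S → Space} {Φ : Plane → S} (h : Tube n f Φ) :
    Pool.PGR.TubN n f Φ := by
  obtain ⟨h1, h2, p, q, u, v, z, h3, h4, h5, h6, h7, h8, h9, h10⟩ := h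
  rw [strip_eq] at h6 h7 h8
  refine ⟨ann_of hn h1, ?_, p, q, u, v, z, h3, h4, h5, h6, h7, h8, h9, ?_⟩
  · intro x hx hx0
    have hx' : x ∈ Strip 0 1 := by
      rw [strip0_eq]
      exact ⟨hx, hx0⟩
    have := h2 x hx'
    rwa [secondForm_eq, curv_eq] at this
  · intro x hx
    have := h10 x hx.1 hx.2
    rwa [secondForm_eq, secondForm_eq, curv_eq] at this

theorem trough_of {f : S → Space} {Φ : Plane → S} (h : Trough f Φ) :
    Pool.TRG.HPiece f (Φ '' Strip 0 1) := by
  obtain ⟨h1, ⟨e₁, e₂, φ, ho, ha, h4, h5, h6⟩, h3⟩ := h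
  refine ⟨Φ, e₁, e₂, φ, ⟨?_, ⟨ha.1, ha.2.1, ha.2.2⟩, ho, h4, ?_, h6⟩, ?_, by rw [strip0_eq]⟩
  · exact ann_of (n := 4) (by norm_num) h1
  · intro s
    obtain ⟨lam, mu, hmu, h⟩ := h5 s
    refine ⟨lam, mu, hmu, ?_⟩
    rw [unit, unit, Real.cos_add_pi_div_two, Real.sin_add_pi_div_two] at h
    exact h
  · intro x hx hx0 n hn hn0 hn1
    have hx' : x ∈ Strip 0 1 := by
      rw [strip0_eq]
      exact ⟨hx, hx0⟩
    exact h3 x hx' n hn hn0 hn1

omit [TopologicalSpace S] [ChartedSpace Plane S] in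
theorem tc_of {f : ℝ → S → Space} {C : Set S} {t : ℝ}
    (h : ∃ A : Space → Space, Motion A ∧ ∀ p ∈ C, f t p = A (f 0 p)) : Pool.SXB.TC f C t := by
  obtain ⟨A, ⟨R, b, h1, h2, h3⟩, hA⟩ := h
  obtain ⟨B, hB, hB1, -⟩ := Pool.TRG.p_MTN R (Pool.SXB.L3 b) ⟨h1, h2⟩
  refine ⟨B, hB, fun p hp => ?_⟩
  rw [hA p hp]
  ext i
  rw [h3]
  exact (congrFun (hB1 (f 0 p)) i).symm

theorem reach_of [IsManifold (𝓡 2) 1 S] {n : ℕ∞} (hn : 4 ≤ n) {f : ℝ → S → Space}
    (hf : Pool.PGR.DfM 4 f) {C : Set S} (h : Reached n f C) : Pool.PGR.Reach n f C := by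
  have hn1 : 1 ≤ n := le_trans (by norm_num) hn
  have h0 : (0 : ℝ) ∈ Icc (0 : ℝ) 1 := ⟨le_rfl, zero_le_one⟩
  induction h with
  | known C h1 h2 => exact Pool.PGR.Reach.rigid C h1 fun t ht => tc_of (h2 t ht)
  | trough Φ h1 => exact Pool.PGR.Reach.hyperbolic _ (trough_of h1)
  | convex U O _ h2 h3 h4 h5 ih => exact Pool.PGR.Reach.elliptic U O ih h2 h3 h4 h5
  | tube U Φ _ h2 h3 ih =>
    rw [strip_eq]
    refine Pool.PGR.Reach.tube U Φ ih (tube_of hn1 h2) fun x hx hx0 => h3 ?_
    have hx' : |x 1| < 1 := hx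
    exact ⟨(abs_lt.1 hx').1, hx0⟩
  | revolution C h1 =>
    obtain ⟨a, b, Φ, ρ, ζ, c, e₁, e₂, e₃, rfl, ⟨h2, h3, h4⟩, h5, h6, h7, h8, h9, h10⟩ := h1
    refine Pool.PGR.all_RTF S n f a b Φ c e₁ e₂ e₃ ρ ζ hn
      ((hf.smooth 0 h0).of_le (by norm_num)) (hf.imm 0 h0)
      ⟨h2, mfd_inj (by exact_mod_cast hn1) h2 h3, h4, h5, h7, h8, fun y hy => (h9 y hy).1, ?_⟩
      (fun y hy => ⟨(h9 y hy).2 _ (Or.inl rfl), (h9 y hy).2 _ (Or.inr rfl)⟩) h10
    intro x hx
    rw [h6 x hx, unit, Pool.PGR.rev, smul_add, smul_smul, smul_smul, ← add_assoc]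
  | union R O _ h2 h3 h4 ih => exact Pool.PGR.Reach.glue R O ih h2 h3 h4

end

theorem result {S : Type w} [TopologicalSpace S] [ChartedSpace Plane S] (n : ℕ∞) (hn : 4 ≤ n)
    [IsManifold (𝓡 2) n S] [T2Space S] [CompactSpace S]
    (f : ℝ → S → Space) (hf : Deformation n f) (C : Set S) (hC : Reached n f C) :
    ∀ t ∈ Icc (0 : ℝ) 1, ∃ A : Space → Space, Motion A ∧ ∀ p ∈ closure C, f t p = A (f 0 p) := by
  have hD := def_of hf
  have hM1 : IsManifold (𝓡 2) 1 S :=
    IsManifold.of_le (n := (n : WithTop ℕ∞)) (by exact_mod_cast (le_trans (by norm_num) hn))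
  have h4 : Pool.PGR.DfM 4 f := hD 4 (by exact_mod_cast hn)
  have h0 : (0 : ℝ) ∈ Icc (0 : ℝ) 1 := ⟨le_rfl, zero_le_one⟩
  intro t ht
  obtain ⟨A, hA, hAf⟩ := (Pool.PGR.all_mainP hn f hD C (reach_of hn h4 hC)).2 t ht
  refine ⟨A, Pool.TRG.motion_of A hA, fun p hp => ?_⟩
  have hcl : IsClosed {p | f t p = A (f 0 p)} :=
    isClosed_eq (h4.smooth t ht).continuous (A.continuous.comp (h4.smooth 0 h0).continuous)
  exact closure_minimal hAf hcl hp

end Pool.Agent.Results.MP_02e829_gt.Propagation
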