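import Pool.Agent.Work.MP_02e829_sf.AllF
import Pool.Agent.Work.MP_02e829_s7.Mot9

/-!
# Rigid pieces around the positively curved part of a closed surface

`S` is a compact connected surface without boundary, `f t : S → E³`, `0 ≤ t ≤ 1`, immersions of
class `C²` inducing the same metric, continuous in `t` in the `C²` topology.  The interior of the
part `K ≤ 0` moves locally as a rigid body, and around every point with `K > 0` there is an open
connected set `C` in the part `K > 0` (for example its component) such that at every time `t` the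
motions of the points of the frontier of `C` (the rigid motions which carry `f 0`, to first order,
to `f t` there) form a special set: at most seven motions, or at most three rotation parts, or
finitely many screw motions of one hand against each other, etc.; or they are only countably many
and some infinitesimal projective transformation of the space is nowhere tangent to the closure of
`C` (which is then, for example, strictly star-shaped from a point or a strict graph over a plane).
Then every `f t` is congruent to `f 0`.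
-/

open Set Manifold Topology Matrix
open scoped ContDiff

set_option autoImplicit false

universe w

namespace Pool.Agent.Results.MP_02e829_gt.RigidPieces

/-- The plane, model space of surfaces. -/
abbrev Plane := EuclideanSpace ℝ (Fin 2)

/-- Euclidean three-space. -/
abbrev Space := EuclideanSpace ℝ (Fin 3)

/-- The product of a matrix and a vector. -/
noncomputable def turn (R : Matrix (Fin 3) (Fin 3) ℝ) (v : Space) : Space := WithLp.toLp 2 (R *ᵥ v)

/-- A motion `x ↦ R x + b` of the space (`R` is a rotation). -/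
structure Motion where
  /-- the rotation -/
  rot : Matrix (Fin 3) (Fin 3) ℝ
  /-- the translation -/
  shift : Space
  orthogonal : rotᵀ * rot = 1
  proper : rot.det = 1

/-- The image of the point `x` under the motion `B`. -/
noncomputable def move (B : Motion) (x : Space) : Space := turn B.rot x + B.shift

variable {S : Type w} [TopologicalSpace S] [ChartedSpace Plane S]

/-- The map `f` is of class `C²`. -/
def IsC2 (f : S → Space) : Prop := ContMDiff (𝓡 2) (𝓡 3) 2 f

/-- The differential of `f` at `p` (the tangent space of the surface at `p` is identified with the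
plane as in Mathlib, by the preferred chart at `p`). -/
noncomputable def differential (f : S → Space) (p : S) : Plane →L[ℝ] Space :=
  mfderiv (𝓡 2) (𝓡 3) f p

/-- The vector `df_p(v)`. -/
noncomputable def dvec (f : S → Space) (p : S) (v : Plane) : Space := differential f p v

/-- The metric induced by `f` (first fundamental form). -/
noncomputable def firstForm (f : S → Space) (p : S) (v w : Plane) : ℝ :=
  inner ℝ (dvec f p v) (dvec f p w)

/-- The map `f` in the preferred chart at `p`. -/
noncomputable def inChart (f : S → Space) (p : S) : Plane → Space :=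
  fun x => f ((extChartAt (𝓡 2) p).symm x)

/-- The first derivative in the preferred chart at `p`. -/
noncomputable def derivative (f : S → Space) (p : S) (x : Plane) : Plane →L[ℝ] Space :=
  fderiv ℝ (inChart f p) x

/-- The second derivative in the preferred chart at `p`. -/
noncomputable def secondDerivative (f : S → Space) (p : S) (x : Plane) :
    Plane →L[ℝ] Plane →L[ℝ] Space :=
  fderiv ℝ (derivative f p) x

/-- The pairs `(t, x)`, where `0 ≤ t ≤ 1` and `x` is in the image of the preferred chart at `p`. -/
def cylinder (p : S) : Set (ℝ × Plane) := Icc (0 : ℝ) 1 ×ˢ (extChartAt (𝓡 2) p).target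

/-- The family in charts is continuous in `(t, x)`. -/
def ContinuousValues (f : ℝ → S → Space) : Prop :=
  ∀ p : S, ContinuousOn (fun z : ℝ × Plane => inChart (f z.1) p z.2) (cylinder p)

/-- The first derivatives of the family in charts are continuous in `(t, x)`. -/
def ContinuousFirst (f : ℝ → S → Space) : Prop :=
  ∀ p : S, ContinuousOn (fun z : ℝ × Plane => derivative (f z.1) p z.2) (cylinder p)

/-- The second derivatives of the family in charts are continuous in `(t, x)`. -/
def ContinuousSecond (f : ℝ → S → Space) : Prop :=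
  ∀ p : S, ContinuousOn (fun z : ℝ × Plane => secondDerivative (f z.1) p z.2) (cylinder p)

/-- `f t`, `0 ≤ t ≤ 1`, is an isometric deformation through immersions of class `C²`, continuous in
the `C²` topology. -/
structure IsometricDeformation (f : ℝ → S → Space) : Prop where
  smooth : ∀ t ∈ Icc (0 : ℝ) 1, IsC2 (f t)
  immersion : ∀ t ∈ Icc (0 : ℝ) 1, ∀ p, Function.Injective (dvec (f t) p)
  isometric : ∀ t ∈ Icc (0 : ℝ) 1, firstForm (f t) = firstForm (f 0)
  values : ContinuousValues f
  first : ContinuousFirst f
  second : ContinuousSecond f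

/-- Near `p` the surface is in a ball which has `f p` on its boundary.  For an immersion of class
`C²` this means that the Gauss curvature is positive at `p`. -/
def PositivelyCurved (f : S → Space) (p : S) : Prop :=
  ∃ c : Space, ∀ᶠ q in 𝓝 p, dist (f q) c ≤ dist (f p) c

/-- The first order motions of the points of `P`: the motions `B` which carry, for some point `p`
of `P`, the point `f p` to `g p` and `df_p` to `dg_p`.  (If `f`, `g` are immersions which induce
the same metric there is exactly one such motion for every `p`.) -/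
def motions (f g : S → Space) (P : Set S) : Set Motion :=
  {B | ∃ p ∈ P, g p = move B (f p) ∧ ∀ v, dvec g p v = turn B.rot (dvec f p v)}

/-- `B` and `B'` differ by a rotation about an axis or by a translation. -/
def Untwisted (B B' : Motion) : Prop := (∃ x, move B x = move B' x) ∨ B.rot = B'.rot

/-- The screw motion by the angle `φ` and the distance `d` along the third axis. -/
noncomputable def screw (φ d : ℝ) (z : Space) : Space :=
  WithLp.toLp 2 ![Real.cos φ * z 0 - Real.sin φ * z 1, Real.sin φ * z 0 + Real.cos φ * z 1, z 2 + d]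

/-- `B` and `B'` differ by a screw motion by an angle in `(0, π)` of a fixed hand, the sign of
`ε`: in some positively oriented Cartesian coordinates this is `screw φ d` with `ε d > 0`. -/
def Twisted (ε : ℝ) (B B' : Motion) : Prop :=
  ∃ (A : Motion) (φ d : ℝ), 0 < φ ∧ φ < Real.pi ∧ 0 < ε * d ∧
    ∀ x z, move B' x = move A z → move B x = move A (screw φ d z)

/-- Special sets of motions: at most seven motions; or at most three rotation parts; or all motions
carry one nonzero vector to the same vector; or one of the motions differs from every other one by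
a rotation or a translation; or finitely many motions, any two of which differ by a rotation, a
translation or a screw motion of a fixed hand. -/
def Special (H : Set Motion) : Prop :=
  H.encard ≤ 7 ∨ (Motion.rot '' H).encard ≤ 3 ∨
  (∃ e : Space, e ≠ 0 ∧ ∀ B ∈ H, ∀ B' ∈ H, turn B.rot e = turn B'.rot e) ∨
  (∃ B' ∈ H, ∀ B ∈ H, Untwisted B B') ∨
  (∃ ε : ℝ, H.Finite ∧ ∀ B ∈ H, ∀ B' ∈ H, Twisted ε B B' ∨ Untwisted B B')

/-- The vector field `X(x) = c + L x + ⟨k, x⟩ x`, an infinitesimal projective transformation. -/
noncomputable def field (c : Space) (L : Matrix (Fin 3) (Fin 3) ℝ) (k x : Space) : Space :=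
  c + turn L x + inner ℝ k x • x

/-- Some infinitesimal projective transformation is nowhere tangent to `f` on `P`. -/
def Transversal (f : S → Space) (P : Set S) : Prop :=
  ∃ (c : Space) (L : Matrix (Fin 3) (Fin 3) ℝ) (k : Space), ∀ p ∈ P, ∀ v,
    dvec f p v ≠ field c L k (f p)

/-- The condition on the motion from `f₀` to `f₁` around the piece `C`. -/
def Braced (f₀ f₁ : S → Space) (C : Set S) : Prop :=
  Special (motions f₀ f₁ (frontier C)) ∨
    ((motions f₀ f₁ (frontier C)).Countable ∧ Transversal f₀ (closure C))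

/-- The hypothesis on the family. -/
def MovesInPieces (f : ℝ → S → Space) : Prop :=
  (∀ q, PositivelyCurved (f 0) q → ∃ C : Set S, IsOpen C ∧ IsPreconnected C ∧ q ∈ C ∧
    (∀ p ∈ C, PositivelyCurved (f 0) p) ∧ ∀ t ∈ Icc (0 : ℝ) 1, Braced (f 0) (f t) C) ∧
  ∀ t ∈ Icc (0 : ℝ) 1, ∀ q ∈ interior {p | ¬ PositivelyCurved (f 0) p}, ∃ B : Motion,
    ∀ᶠ p in 𝓝 q, f t p = move B (f 0 p)

omit [ChartedSpace Plane S] in
lemma posCurv_iff (f : S → Space) (p : S) : Pool.SXB.PosCurv f p ↔ PositivelyCurved f p := by
  have key : ∀ x u : Space, ‖x‖ ^ 2 ≤ inner ℝ x ((2 : ℝ) • u) ↔ ‖x - u‖ ≤ ‖u‖ := by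
    intro x u
    have h1 : ‖x - u‖ ^ 2 = ‖x‖ ^ 2 - 2 * inner ℝ x u + ‖u‖ ^ 2 := norm_sub_sq_real x u
    rw [inner_smul_right]
    constructor
    · intro h
      have h2 : ‖x - u‖ ^ 2 ≤ ‖u‖ ^ 2 := by rw [h1]; linarith
      exact (sq_le_sq₀ (norm_nonneg _) (norm_nonneg _)).1 h2
    · intro h
      have h2 : ‖x - u‖ ^ 2 ≤ ‖u‖ ^ 2 := (sq_le_sq₀ (norm_nonneg _) (norm_nonneg _)).2 h
      rw [h1] at h2
      linarith
  constructor
  · rintro ⟨n, hn⟩
    refine ⟨f p + (1 / 2 : ℝ) • n, ?_⟩
    filter_upwards [hn] with q hq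
    have h2 : (2 : ℝ) • ((1 / 2 : ℝ) • n) = n := by rw [smul_smul]; norm_num
    rw [← h2, key] at hq
    rw [dist_eq_norm, dist_eq_norm]
    have e1 : f q - (f p + (1 / 2 : ℝ) • n) = f q - f p - (1 / 2 : ℝ) • n := by abel
    have e2 : f p - (f p + (1 / 2 : ℝ) • n) = -((1 / 2 : ℝ) • n) := by abel
    rw [e1, e2, norm_neg]
    exact hq
  · rintro ⟨c, hc⟩
    refine ⟨(2 : ℝ) • (c - f p), ?_⟩
    filter_upwards [hc] with q hq
    rw [key]
    rw [dist_eq_norm, dist_eq_norm, ← norm_neg (f p - c)] at hq
    have e1 : f q - f p - (c - f p) = f q - c := by abel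
    have e2 : -(f p - c) = c - f p := by abel
    rw [e1]
    rw [e2] at hq
    exact hq

/-- the isometry of the space -/
noncomputable def iso (B : Motion) : Space ≃ᵃⁱ[ℝ] Space :=
  Pool.SXB.isoE B.rot B.orthogonal B.shift

lemma iso_apply (B : Motion) (x : Space) : iso B x = move B x := Pool.SXB.isoE_apply _ _ _ _

lemma iso_lin (B : Motion) (v : Space) : (iso B).linearIsometryEquiv v = turn B.rot v := rfl

lemma iso_proper (B : Motion) : Pool.SXB.Proper (iso B) :=
  Pool.SXB.isoE_proper B.orthogonal B.proper B.shift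

lemma iso_exists (B : Space ≃ᵃⁱ[ℝ] Space) (hB : Pool.SXB.Proper B) : ∃ B' : Motion, B = iso B' := by
  obtain ⟨R, hR, b, hd, h⟩ := Pool.SXB.isoE_exists B hB
  exact ⟨⟨R, b, hR, hd⟩, h⟩

lemma mset_eq (f g : S → Space) (P : Set S) : Pool.SXB.Mset f g P = iso '' motions f g P := by
  ext B
  constructor
  · rintro ⟨hB, p, hp, h1, h2⟩
    obtain ⟨B', rfl⟩ := iso_exists B hB
    exact ⟨B', ⟨p, hp, h1.trans (iso_apply _ _), h2⟩, rfl⟩
  · rintro ⟨B', ⟨p, hp, h1, h2⟩, rfl⟩
    exact ⟨iso_proper B', p, hp, h1.trans (iso_apply _ _).symm, h2⟩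

lemma untwisted_of {B B' : Motion} (h : Untwisted B B') : (∃ x, iso B x = iso B' x) ∨
    (iso B).linearIsometryEquiv = (iso B').linearIsometryEquiv := by
  rcases h with ⟨x, hx⟩ | h
  · exact Or.inl ⟨x, by rw [iso_apply, iso_apply, hx]⟩
  · right
    ext1 v
    rw [iso_lin, iso_lin, h]

lemma special_of {H : Set Motion} (h : Special H) : Pool.SXB.Special9 (iso '' H) := by
  classical
  rcases h with h | h | ⟨e, he, h⟩ | ⟨B', hB', h⟩ | ⟨ε, hf, h⟩
  · exact Or.inl ((encard_image_le _ _).trans h)
  · refine Or.inr (Or.inl ?_)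
    obtain ⟨G, hG⟩ : ∃ G : Matrix (Fin 3) (Fin 3) ℝ → (Space ≃ₗᵢ[ℝ] Space), G = fun R =>
      if hR : Rᵀ * R = 1 then Pool.SXB.linE R hR else LinearIsometryEquiv.refl ℝ Space := ⟨_, rfl⟩
    have h1 : (fun B : Space ≃ᵃⁱ[ℝ] Space => B.linearIsometryEquiv) '' (iso '' H) =
        G '' (Motion.rot '' H) := by
      rw [image_image, image_image]
      refine image_congr fun B _ => ?_
      rw [hG]
      beta_reduce
      rw [dif_pos B.orthogonal]
      rfl
    rw [h1]
    exact (encard_image_le _ _).trans h
  · refine Or.inr (Or.inr (Or.inl ⟨e, he, ?_⟩))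
    rintro _ ⟨B, hB, rfl⟩ _ ⟨B', hB', rfl⟩
    rw [iso_lin, iso_lin]
    exact h B hB B' hB'
  · refine Or.inr (Or.inr (Or.inr (Or.inl ⟨iso B', ⟨B', hB', rfl⟩, ?_⟩)))
    rintro _ ⟨B, hB, rfl⟩
    exact untwisted_of (h B hB)
  · refine Or.inr (Or.inr (Or.inr (Or.inr ⟨ε, hf.image _, ?_⟩)))
    rintro _ ⟨B, hB, rfl⟩ _ ⟨B', hB', rfl⟩
    rcases h B hB B' hB' with ⟨A, φ, d, h0, h1, hd, hz⟩ | h2
    · refine Or.inl (Pool.SXB.SC9 (iso_proper A) h0 h1 hd fun z => ?_)
      obtain ⟨x, hx⟩ : ∃ x, iso B' x = iso A z := (iso B').surjective _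
      change iso B ((iso B').symm (iso A z)) = _
      rw [← hx, AffineIsometryEquiv.symm_apply_apply, iso_apply, iso_apply]
      rw [iso_apply, iso_apply] at hx
      exact hz x z hx
    · exact Or.inr (untwisted_of h2)

lemma field_L3 (c : Space) (L : Matrix (Fin 3) (Fin 3) ℝ) (k x : Space) :
    Pool.SXB.L3 (field c L k x) =
      Pool.SXB.XX (Pool.SXB.L3 c) L (Pool.SXB.L3 k) (Pool.SXB.L3 x) := by
  have h1 : Pool.SXB.L3 (turn L x) = L *ᵥ Pool.SXB.L3 x := rfl
  rw [field, map_add, map_add, map_smul, h1, Pool.SXB.LOC_inner]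
  rfl

lemma transv_of {f : S → Space} {P : Set S} (h : Transversal f P) : Pool.SXB.Transv f P := by
  obtain ⟨c, L, k, h1⟩ := h
  refine ⟨Pool.SXB.L3 c, L, Pool.SXB.L3 k, fun p hp v h2 => h1 p hp v ?_⟩
  rw [← field_L3] at h2
  exact Pool.SXB.LOC_inj h2

theorem result {S : Type w} [TopologicalSpace S] [ChartedSpace Plane S]
    [IsManifold (𝓡 2) 2 S] [T2Space S] [CompactSpace S] [ConnectedSpace S]
    (f : ℝ → S → Space) (hf : IsometricDeformation f) (h : MovesInPieces f) :
    ∀ t ∈ Icc (0 : ℝ) 1, ∃ A : Motion, ∀ p, f t p = move A (f 0 p) := by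
  intro t ht
  obtain ⟨h1, h2⟩ := h
  obtain ⟨A, hA, hAf⟩ := Pool.SXB.allF S f
    { fam :=
        { smooth := hf.smooth
          imm := hf.immersion
          iso := fun t ht p v w => congrFun (congrFun (congrFun (hf.isometric t ht) p) v) w
          cont1 := hf.first
          cont2 := hf.second }
      cont0 := hf.values } (by
    refine ⟨fun q hq => ?_, fun t ht q hq => ?_⟩
    · obtain ⟨C, hC, hCc, hqC, hCP, hS⟩ := h1 q ((posCurv_iff _ _).1 hq)
      refine ⟨C, hC, hCc, hqC, fun p hp => (posCurv_iff _ _).2 (hCP p hp), fun t ht => ?_⟩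
      rw [mset_eq]
      rcases hS t ht with h3 | ⟨h3, h4⟩
      · exact Or.inl (special_of h3)
      · exact Or.inr ⟨h3.image _, transv_of h4⟩
    · have e1 : {p | ¬ Pool.SXB.PosCurv (f 0) p} = {p | ¬ PositivelyCurved (f 0) p} := by
        ext p
        exact not_congr (posCurv_iff _ _)
      rw [e1] at hq
      obtain ⟨B, hB⟩ := h2 t ht q hq
      refine ⟨iso B, iso_proper B, ?_⟩
      filter_upwards [hB] with p hp
      rw [hp, iso_apply]) t ht
  obtain ⟨A', rfl⟩ := iso_exists A hA
  exact ⟨A', fun p => (hAf p).trans (iso_apply _ _)⟩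

end Pool.Agent.Results.MP_02e829_gt.RigidPieces
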