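import Pool.Agent.Work.MP_02e829_tr.All
import Pool.Agent.Work.MP_02e829_tr.Mv

/-!
# Troughs of surfaces are rigid under isometric deformations

`S` is a connected surface of class `C⁴` (for example closed), `f t : S → E³`, `0 ≤ t ≤ 1`, is a
family of immersions of class `C⁴` inducing the same metric, continuous in the `C²` topology and
locally bounded in the `C⁴` topology (in particular every isometric deformation of class `C⁴`).  A
trough of `f 0` is a closed curve along which the surface touches a plane and which is a convex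
curve of this plane, such that the surface is curved across the curve; its points are parabolic
points of the surface.

For every `t` there is a proper motion `A` of the space such that `f t` and `A ∘ f 0` agree to second
order along the trough, to infinite order if everything is of class `C^∞`, and on the whole surface
if everything is real analytic: a closed real analytic surface with a trough cannot be bent
analytically.
-/

open Set Manifold Matrix
open scoped ContDiff Real

set_option autoImplicit false

universe w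

namespace Pool.Agent.Results.MP_02e829_gt.TroughRigidity

/-- The plane, model space of surfaces. -/
abbrev Plane := EuclideanSpace ℝ (Fin 2)

/-- Euclidean three-space. -/
abbrev Space := EuclideanSpace ℝ (Fin 3)

/-- `A` is a proper motion of the space: `A x = R x + b` with a rotation `R`. -/
def Motion (A : Space → Space) : Prop :=
  ∃ (R : Matrix (Fin 3) (Fin 3) ℝ) (b : Space), Rᵀ * R = 1 ∧ R.det = 1 ∧
    ∀ x i, A x i = ∑ j, R i j * x j + b i

/-- The partial derivative of `F` at `x` in the direction of the coordinate `i`. -/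
noncomputable def partialD (i : Fin 2) (F : Plane → Space) (x : Plane) : Space :=
  fderiv ℝ F x (EuclideanSpace.single i (1 : ℝ))

/-- The unit vector with angle `a` in the plane of `e₁, e₂`. -/
noncomputable def unit (e₁ e₂ : Space) (a : ℝ) : Space := Real.cos a • e₁ + Real.sin a • e₂

/-- The strip `|x₁| < 1` of the plane (coordinates `x₀, x₁`). -/
def Strip : Set Plane := {x | |x 1| < 1}

/-- The point `(s, 0)` of the plane. -/
noncomputable def pt (s : ℝ) : Plane := s • EuclideanSpace.single 0 (1 : ℝ)

/-- `φ` is the angle of the tangent of a closed convex curve: `φ' > 0` and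
`φ (s + 2π) = φ s + 2π`. -/
def TangentAngle (φ : ℝ → ℝ) : Prop :=
  ContDiff ℝ 3 φ ∧ (∀ s, 0 < deriv φ s) ∧ ∀ s, φ (s + 2 * π) = φ s + 2 * π

/-- Along the line `x₁ = 0` the map `F` touches the plane of the orthonormal vectors `e₁, e₂`: `∂₀ F`
is a positive multiple of the unit vector with angle `φ`, `∂₁ F` is in the plane, on the inner side,
and `∂₁∂₁ F` is not in the plane. -/
structure Touches (F : Plane → Space) (e₁ e₂ : Space) (φ : ℝ → ℝ) : Prop where
  orthonormal : Orthonormal ℝ ![e₁, e₂]
  angle : TangentAngle φ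
  along : ∀ s, ∃ ρ : ℝ, 0 < ρ ∧ partialD 0 F (pt s) = ρ • unit e₁ e₂ (φ s)
  across : ∀ s, ∃ lam mu : ℝ, 0 < mu ∧
    partialD 1 F (pt s) = lam • unit e₁ e₂ (φ s) + mu • unit e₁ e₂ (φ s + π / 2)
  bend : ∀ s, partialD 1 (partialD 1 F) (pt s) ∉ Submodule.span ℝ {e₁, e₂}

/-- The derivatives of order `k` of the maps `F t` are jointly continuous on `[0, 1] × U`. -/
def JetContinuousOn (k : ℕ) (F : ℝ → Plane → Space) (U : Set Plane) : Prop :=
  ContinuousOn (fun z : ℝ × Plane => iteratedFDeriv ℝ k (F z.1) z.2) (Icc 0 1 ×ˢ U)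

/-- The derivatives of order `≤ n` of the maps `F t`, `t ∈ [0, 1]`, are bounded near `x`, uniformly
in `t`. -/
def JetBoundedNear (n : ℕ) (F : ℝ → Plane → Space) (x : Plane) : Prop :=
  ∃ M : ℝ, ∀ᶠ y in nhds x, ∀ t ∈ Icc (0 : ℝ) 1, ∀ k ≤ n, ‖iteratedFDeriv ℝ k (F t) y‖ ≤ M

section surface

variable {S : Type w} [TopologicalSpace S] [ChartedSpace Plane S]

/-- The map `f` is of class `C^n`. -/
def Smooth (n : WithTop ℕ∞) (f : S → Space) : Prop := ContMDiff (𝓡 2) (𝓡 3) n f

/-- The differential of `f` at `p` (the tangent space of the surface at `p` is identified with the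
plane as in Mathlib, by the preferred chart at `p`). -/
noncomputable def differential (f : S → Space) (p : S) : Plane →L[ℝ] Space :=
  mfderiv (𝓡 2) (𝓡 3) f p

/-- The vector `df_p(v)`. -/
noncomputable def dvec (f : S → Space) (p : S) (v : Plane) : Space := differential f p v

/-- The metric induced by `f` (first fundamental form). -/
noncomputable def firstForm (f : S → Space) (p : S) (v w : Plane) : ℝ :=
  inner ℝ (dvec f p v) (dvec f p w)

/-- The map `f` in the inverse of the chart at `p`. -/
noncomputable def inChart (f : S → Space) (p : S) (x : Plane) : Space :=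
  f ((extChartAt (𝓡 2) p).symm x)

/-- The domain of the inverse of the chart at `p`. -/
def chartDomain (p : S) : Set Plane := (extChartAt (𝓡 2) p).target

/-- `f t`, `0 ≤ t ≤ 1`, is an isometric deformation through immersions of class `C⁴`: in the charts
the derivatives of order `≤ 2` (values included) are jointly continuous in `t` and the point, and
those of order `≤ 4` are bounded near every point, uniformly in `t`. -/
structure Deformation (f : ℝ → S → Space) : Prop where
  smooth : ∀ t ∈ Icc (0 : ℝ) 1, Smooth 4 (f t)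
  immersion : ∀ t ∈ Icc (0 : ℝ) 1, ∀ p, Function.Injective (dvec (f t) p)
  isometric : ∀ t ∈ Icc (0 : ℝ) 1, firstForm (f t) = firstForm (f 0)
  continuous : ∀ (p : S) (k : ℕ), k ≤ 2 →
    JetContinuousOn k (fun t => inChart (f t) p) (chartDomain p)
  bounded : ∀ (p : S), ∀ x ∈ chartDomain p, JetBoundedNear 4 (fun t => inChart (f t) p) x

/-- The differential of `Φ` at `x`, in the chart of the surface at `Φ x`. -/
noncomputable def chartDifferential (Φ : Plane → S) (x : Plane) : Plane →L[ℝ] Plane :=
  fderiv ℝ (fun y => extChartAt (𝓡 2) (Φ x) (Φ y)) x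

/-- The map `Φ` is of class `C^n` on the strip. -/
def SmoothOnStrip (n : WithTop ℕ∞) (Φ : Plane → S) : Prop := ContMDiffOn (𝓡 2) (𝓡 2) n Φ Strip

/-- Coordinates of class `C^n` on an annulus of the surface: a local diffeomorphism of the strip
which is `2π`-periodic in `x₀`. -/
structure Annulus (n : WithTop ℕ∞) (Φ : Plane → S) : Prop where
  smooth : SmoothOnStrip n Φ
  regular : ∀ x ∈ Strip, Function.Injective (chartDifferential Φ x)
  periodic : ∀ x ∈ Strip, Φ (x + pt (2 * π)) = Φ x

/-- The closed curve `s ↦ Φ (s, 0)` is a trough of `f`. -/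
def Trough (f : S → Space) (Φ : Plane → S) : Prop :=
  Annulus 4 Φ ∧ ∃ (e₁ e₂ : Space) (φ : ℝ → ℝ), Touches (fun x => f (Φ x)) e₁ e₂ φ

/-- Along the curve of `Φ` the maps `g` and `h` agree with their derivatives of order `≤ m` in the
coordinates `Φ`. -/
def AgreeToOrder (m : ℕ) (g h : S → Space) (Φ : Plane → S) : Prop :=
  ∀ s : ℝ, ∀ k ≤ m, iteratedFDeriv ℝ k (fun x => g (Φ x)) (pt s) =
    iteratedFDeriv ℝ k (fun x => h (Φ x)) (pt s)

end surface

/-- The surface `S` is of class `C^n`. -/
def SurfaceOfClass (n : WithTop ℕ∞) (S : Type w) [TopologicalSpace S] [ChartedSpace Plane S] :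
    Prop :=
  IsManifold (𝓡 2) n S

theorem result {S : Type w} [TopologicalSpace S] [ChartedSpace Plane S] [ConnectedSpace S]
    (hS : SurfaceOfClass 4 S) (f : ℝ → S → Space) (hf : Deformation f)
    (Φ : Plane → S) (hΦ : Trough (f 0) Φ) (t : ℝ) (ht : t ∈ Icc (0 : ℝ) 1) :
    ∃ A : Space → Space, Motion A ∧ AgreeToOrder 2 (f t) (fun p => A (f 0 p)) Φ ∧
      (Annulus ∞ Φ → Smooth ∞ (f 0) → Smooth ∞ (f t) →
        ∀ m, AgreeToOrder m (f t) (fun p => A (f 0 p)) Φ) ∧
      (SurfaceOfClass ω S → Annulus ω Φ → Smooth ω (f 0) → Smooth ω (f t) →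
        ∀ p, f t p = A (f 0 p)) := by
  have : IsManifold (𝓡 2) 4 S := hS
  have hD : Pool.TRG.Dfm f := ⟨hf.smooth, hf.immersion,
    fun t ht p v w => congrFun (congrFun (congrFun (hf.isometric t ht) p) v) w,
    hf.continuous, hf.bounded⟩
  have hann : ∀ n : WithTop ℕ∞, 1 ≤ n → Annulus n Φ → Pool.TRG.Ann n Φ := fun n hn h =>
    Pool.TRG.ann_of hn h.smooth h.regular h.periodic
  obtain ⟨hA4, e₁, e₂, φ, hT⟩ := hΦ
  have hac : ∀ s : ℝ, ∃ lam mu : ℝ, 0 < mu ∧ Pool.FR.pd 1 (fun y => f 0 (Φ y)) (Pool.TRG.pt s) =
      lam • (Real.cos (φ s) • e₁ + Real.sin (φ s) • e₂) +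
        mu • (-(Real.sin (φ s)) • e₁ + Real.cos (φ s) • e₂) := by
    intro s
    obtain ⟨lam, mu, hmu, h⟩ := hT.across s
    refine ⟨lam, mu, hmu, ?_⟩
    rw [unit, unit, Real.cos_add_pi_div_two, Real.sin_add_pi_div_two] at h
    exact h
  obtain ⟨A, hA, h1, h2, h3⟩ := Pool.TRG.all_main1 f hD Φ e₁ e₂ φ
    ⟨hann 4 (by norm_num) hA4, ⟨hT.angle.1, hT.angle.2.1, hT.angle.2.2⟩, hT.orthonormal,
      hT.along, hac, hT.bend⟩ t ht
  exact ⟨A, Pool.TRG.motion_of A hA, h1, fun k => h2 (hann ∞ (by simp) k),
    fun hM k => h3 hM (hann ω le_top k)⟩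

end Pool.Agent.Results.MP_02e829_gt.TroughRigidity
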